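import Pool.Agent.H6.N4D.TB

/-!
# E1: the clipped difference is almost constant along the edges
-/

set_option autoImplicit false

open Finset

namespace Pool.Agent.H61.N4D

open Pool.Agent.H6.N4D

theorem pf_E1 (hE1P : T_E1P) (hE1S : T_E1S) : T_E1 := by
  intro K ε₁ ε' hK h1 h1' h2 h2'
  obtain ⟨X₁, hX₁⟩ := hE1P K ε₁ ε' hK h1 h1' h2 h2'
  obtain ⟨X₂, hX₂⟩ := hE1S K ε₁ ε' hK h1 h1' h2 h2'
  refine ⟨max X₁ X₂, ?_⟩
  intro S ε₀ η θ φ hS hSK hX h0 h3 hR k hk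
  have e : ∀ x y : ℝ, ‖(x : ℂ) - (y : ℂ)‖ = |x - y| := by
    intro x y
    rw [← Complex.ofReal_sub, Complex.norm_real, Real.norm_eq_abs]
  constructor
  · simp only [e]
    exact hX₁ S ε₀ η θ φ hS hSK ((le_max_left _ _).trans hX) h0 h3 hR k hk
  · simp only [e]
    exact hX₂ S ε₀ η θ φ hS hSK ((le_max_right _ _).trans hX) h0 h3 hR k hk

end Pool.Agent.H61.N4D
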