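import Pool.Agent.H6.N4D.TD

/-!
# GPC: the spectral gap in the form used in the end game
-/

set_option autoImplicit false

open Finset

namespace Pool.Agent.H61.N4D

open Pool.Agent.H6.N4D

theorem sq_ni (u : ℝ) (p : ℕ) :
    ‖Pool.Agent.H83.VU.ni u p - 1‖ ^ 2 = 2 * (1 - Real.cos (u * Real.log p)) ∧
    ‖Pool.Agent.H83.VU.ni u p - (-1)‖ ^ 2 = 2 * (1 + Real.cos (u * Real.log p)) := by
  have h := Real.sin_sq_add_cos_sq (u * Real.log p)
  unfold Pool.Agent.H83.VU.ni
  constructor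
  · rw [Complex.sq_norm, Complex.normSq_apply, Complex.sub_re, Complex.sub_im,
      Complex.exp_ofReal_mul_I_re, Complex.exp_ofReal_mul_I_im, Complex.one_re, Complex.one_im]
    linear_combination h
  · rw [Complex.sq_norm, Complex.normSq_apply, Complex.sub_re, Complex.sub_im,
      Complex.exp_ofReal_mul_I_re, Complex.exp_ofReal_mul_I_im, Complex.neg_re, Complex.neg_im,
      Complex.one_re, Complex.one_im]
    linear_combination h

theorem pf_GPC : T_GPC := by
  intro hG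
  obtain ⟨b, c, X₀, hc, h⟩ := hG 1 one_pos
  refine ⟨max b 2, c / 2, max X₀ 1, by positivity, le_max_right _ _, ?_⟩
  intro X u hX hu hu'
  have hX1 : 1 ≤ X := (le_max_right _ _).trans hX
  have hX0 : X₀ ≤ X := (le_max_left _ _).trans hX
  have hP : 1 ≤ PP X := by
    unfold PP
    exact Real.one_le_exp (Real.rpow_nonneg (Real.log_nonneg hX1) _)
  have hlog : 1 / Real.log (PP X) ≤ |u| := by
    rw [log_PP]
    exact hu
  have key : ∀ z : ℂ, ‖z‖ = 1 → c ≤ ∑ p ∈ Pr (PP X) (PP X ^ max b 2),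
      1 / (p : ℝ) * ‖Pool.Agent.H83.VU.ni u p - z‖ ^ 2 := by
    intro z hz
    refine (h X (PP X) u hX0 le_rfl hlog hu' z hz).trans ?_
    refine Finset.sum_le_sum_of_subset_of_nonneg ?_ fun p _ _ => by positivity
    intro p hp
    have hp' : p ∈ Pr (PP X) (PP X ^ b) := hp
    have h0 : 0 ≤ PP X := (PP_pos X).le
    rw [mem_Pr (pow_nonneg h0 _)] at hp' ⊢
    exact ⟨hp'.1, hp'.2.1.trans (pow_le_pow_right₀ hP (le_max_left _ _)), hp'.2.2⟩
  constructor
  · have h1 := key 1 (by simp)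
    have e : ∑ p ∈ Pr (PP X) (PP X ^ max b 2), 1 / (p : ℝ) *
        ‖Pool.Agent.H83.VU.ni u p - 1‖ ^ 2 =
        2 * ∑ p ∈ Pr (PP X) (PP X ^ max b 2), 1 / (p : ℝ) * (1 - Real.cos (u * Real.log p)) := by
      rw [Finset.mul_sum]
      refine Finset.sum_congr rfl fun p _ => ?_
      rw [(sq_ni u p).1]
      ring
    rw [e] at h1
    linarith
  · have h1 := key (-1) (by simp)
    have e : ∑ p ∈ Pr (PP X) (PP X ^ max b 2), 1 / (p : ℝ) *
        ‖Pool.Agent.H83.VU.ni u p - (-1)‖ ^ 2 =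
        2 * ∑ p ∈ Pr (PP X) (PP X ^ max b 2), 1 / (p : ℝ) * (1 + Real.cos (u * Real.log p)) := by
      rw [Finset.mul_sum]
      refine Finset.sum_congr rfl fun p _ => ?_
      rw [(sq_ni u p).2]
      ring
    rw [e] at h1
    linarith

end Pool.Agent.H61.N4D
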