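import Pool.Agent.H6.N4D.TC

/-!
# MOM: the second moment
-/

set_option autoImplicit false

open Finset

namespace Pool.Agent.H61.N4D

open Pool.Agent.H6.N4D

theorem cnt_dvd (n Y d : ℕ) (hd : 0 < d) :
    (((Ioc n (n + Y)).filter fun m => d ∣ m).card : ℝ) ≤ Y / d + 1 := by
  have h := Nat.Ioc_filter_modEq_card n (n + Y) hd 0
  simp only [Nat.modEq_zero_iff_dvd, Nat.cast_zero, sub_zero] at h
  have hd' : (0 : ℚ) < d := by exact_mod_cast hd
  have h1 : ((((Ioc n (n + Y)).filter fun m => d ∣ m).card : ℤ) : ℚ) ≤ Y / d + 1 := by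
    rw [h]
    rcases le_total (⌊(((n + Y : ℕ) : ℚ)) / d⌋ - ⌊(n : ℚ) / d⌋) 0 with h2 | h2
    · rw [max_eq_right h2]
      push_cast
      positivity
    · rw [max_eq_left h2]
      push_cast
      have e1 := Int.floor_le (((n : ℚ) + Y) / d)
      have e2 := Int.lt_floor_add_one ((n : ℚ) / d)
      have e3 : ((n : ℚ) + Y) / d = n / d + Y / d := add_div _ _ _
      rw [e3] at e1 ⊢
      linarith
  have h3 : ((((((Ioc n (n + Y)).filter fun m => d ∣ m).card : ℤ) : ℚ)) : ℝ) ≤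
      ((Y / d + 1 : ℚ) : ℝ) := by exact_mod_cast h1
  push_cast at h3
  exact h3

theorem pf_MOM : T_MOM := by
  classical
  intro A E R Y n hA hE
  let W := Ioc n (n + Y)
  let om : ℕ → ℝ := fun m => ((A.filter fun p => p ∣ m).card : ℝ)
  have e1 : ((∑ p ∈ A, (E.filter fun m => p ∣ m).card : ℕ) : ℝ) = ∑ m ∈ E, om m := by
    have h : (∑ p ∈ A, (E.filter fun m => p ∣ m).card) =
        ∑ m ∈ E, (A.filter fun p => p ∣ m).card := by
      simp only [Finset.card_filter]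
      exact Finset.sum_comm
    rw [h]
    push_cast
    rfl
  have e2 : (∑ m ∈ E, om m) ^ 2 ≤ E.card * ∑ m ∈ E, om m ^ 2 := sq_sum_le_card_mul_sum_sq
  have e3 : ∑ m ∈ E, om m ^ 2 ≤ ∑ m ∈ W, om m ^ 2 :=
    Finset.sum_le_sum_of_subset_of_nonneg hE fun m _ _ => sq_nonneg _
  have e4 : ∑ m ∈ W, om m ^ 2 =
      ∑ p ∈ A, ∑ q ∈ A, ((W.filter fun m => p ∣ m ∧ q ∣ m).card : ℝ) := by
    have h : ∀ m, om m ^ 2 = ∑ p ∈ A, ∑ q ∈ A, (if p ∣ m ∧ q ∣ m then (1 : ℝ) else 0) := by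
      intro m
      have h1 : om m = ∑ p ∈ A, (if p ∣ m then (1 : ℝ) else 0) := by
        simp only [om, Finset.card_filter]
        push_cast
        rfl
      rw [h1, sq, Finset.sum_mul_sum]
      refine Finset.sum_congr rfl fun p _ => Finset.sum_congr rfl fun q _ => ?_
      by_cases hp : p ∣ m <;> by_cases hq : q ∣ m <;> simp [hp, hq]
    simp only [h]
    rw [Finset.sum_comm]
    refine Finset.sum_congr rfl fun p _ => ?_
    rw [Finset.sum_comm]
    refine Finset.sum_congr rfl fun q _ => ?_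
    rw [Finset.card_filter]
    push_cast
    rfl
  have e5 : ∀ p ∈ A, ∀ q ∈ A, ((W.filter fun m => p ∣ m ∧ q ∣ m).card : ℝ) ≤
      (Y * (1 / (p : ℝ) * (1 / q)) + 1) + (if p = q then Y * (1 / (p : ℝ)) else 0) := by
    intro p hp q hq
    have pp := (hA p hp).1.pos
    have pq := (hA q hq).1.pos
    have pp' : (0 : ℝ) < p := by exact_mod_cast pp
    have pq' : (0 : ℝ) < q := by exact_mod_cast pq
    by_cases h : p = q
    · subst h
      rw [if_pos rfl]
      have h1 := cnt_dvd n Y p pp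
      have h2 : (W.filter fun m => p ∣ m ∧ p ∣ m) = W.filter fun m => p ∣ m := by
        refine Finset.filter_congr fun m _ => and_self_iff
      rw [h2]
      have h3 : (0 : ℝ) ≤ Y * (1 / (p : ℝ) * (1 / p)) := by positivity
      have h4 : (Y : ℝ) * (1 / (p : ℝ)) = Y / p := by ring
      rw [h4]
      linarith
    · rw [if_neg h, add_zero]
      have h1 := cnt_dvd n Y (p * q) (Nat.mul_pos pp pq)
      have hc : Nat.Coprime p q := (Nat.coprime_primes (hA p hp).1 (hA q hq).1).2 h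
      have h2 : (W.filter fun m => p ∣ m ∧ q ∣ m) = W.filter fun m => p * q ∣ m := by
        refine Finset.filter_congr fun m _ => ?_
        constructor
        · rintro ⟨h3, h4⟩
          exact hc.mul_dvd_of_dvd_of_dvd h3 h4
        · intro h3
          exact ⟨dvd_trans (dvd_mul_right p q) h3, dvd_trans (dvd_mul_left q p) h3⟩
      rw [h2]
      refine h1.trans (le_of_eq ?_)
      push_cast
      field_simp
  have hcA : (A.card : ℝ) ≤ R := by
    have h : A ⊆ Icc 1 R := fun p hp => Finset.mem_Icc.2 ⟨(hA p hp).1.pos, (hA p hp).2⟩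
    have h1 := Finset.card_le_card h
    rw [Nat.card_Icc] at h1
    have h2 : A.card ≤ R := by omega
    exact_mod_cast h2
  have e6 : ∑ p ∈ A, ∑ q ∈ A, ((W.filter fun m => p ∣ m ∧ q ∣ m).card : ℝ) ≤
      Y * ((∑ p ∈ A, 1 / (p : ℝ)) ^ 2 + ∑ p ∈ A, 1 / (p : ℝ)) + 2 * (R : ℝ) ^ 2 := by
    have h1 : ∑ p ∈ A, ∑ q ∈ A, ((W.filter fun m => p ∣ m ∧ q ∣ m).card : ℝ) ≤
        ∑ p ∈ A, ∑ q ∈ A, ((Y * (1 / (p : ℝ) * (1 / q)) + 1) +
          (if p = q then Y * (1 / (p : ℝ)) else 0)) :=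
      Finset.sum_le_sum fun p hp => Finset.sum_le_sum fun q hq => e5 p hp q hq
    refine h1.trans ?_
    have h2 : ∑ p ∈ A, ∑ q ∈ A, ((Y * (1 / (p : ℝ) * (1 / q)) + 1) +
          (if p = q then Y * (1 / (p : ℝ)) else 0)) =
        Y * ((∑ p ∈ A, 1 / (p : ℝ)) ^ 2) + (A.card : ℝ) ^ 2 + Y * ∑ p ∈ A, 1 / (p : ℝ) := by
      simp only [Finset.sum_add_distrib, Finset.sum_const, nsmul_eq_mul, mul_one]
      congr 1
      · congr 1
        · rw [sq, Finset.sum_mul_sum, Finset.mul_sum]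
          refine Finset.sum_congr rfl fun p _ => ?_
          rw [Finset.mul_sum]
        · ring
      · rw [Finset.mul_sum]
        refine Finset.sum_congr rfl fun p hp => ?_
        rw [Finset.sum_ite_eq, if_pos hp]
    rw [h2]
    have h3 : (A.card : ℝ) ^ 2 ≤ (R : ℝ) ^ 2 := pow_le_pow_left₀ (Nat.cast_nonneg _) hcA 2
    nlinarith [sq_nonneg (R : ℝ)]
  rw [e1]
  refine e2.trans (mul_le_mul_of_nonneg_left ?_ (Nat.cast_nonneg _))
  rw [e4] at e3
  exact e3.trans e6

end Pool.Agent.H61.N4D
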